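import Pool.Agent.MP_2b3591_co.Core

set_option autoImplicit false

namespace Pool.Agent.MP_2b3591_co

open Finset

/-- The Fano plane. -/
def fano : Finset (Finset (Fin 7)) :=
  Finset.univ.image (fun i : Fin 7 => ({i, i + 1, i + 3} : Finset (Fin 7)))

set_option maxRecDepth 100000 in
theorem fano_unif : Uniform 3 fano := by unfold Uniform; decide

set_option maxRecDepth 100000 in
theorem fano_inter : Intersecting fano := by unfold Intersecting; decide

set_option maxRecDepth 100000 in
theorem fano_av : ∀ T : Finset (Fin 7), T.card < 3 → 2 ≤ (avoid fano T).card := by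
  unfold avoid; decide

variable {α : Type*} [Fintype α] [DecidableEq α]

/-- Replace each point by a Fano plane. -/
def comp (F : Finset (Finset α)) : Finset (Finset (Σ _ : α, Fin 7)) :=
  F.biUnion fun A => (Fintype.piFinset (fun x => if x ∈ A then fano else {∅})).image
    (fun L => (Finset.univ : Finset α).sigma L)

theorem mem_comp (F : Finset (Finset α)) (S : Finset (Σ _ : α, Fin 7)) :
    S ∈ comp F ↔ ∃ A ∈ F, ∃ L : α → Finset (Fin 7), (∀ x ∈ A, L x ∈ fano) ∧ (∀ x ∉ A, L x = ∅) ∧
      S = (Finset.univ : Finset α).sigma L := by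
  simp only [comp, mem_biUnion, mem_image, Fintype.mem_piFinset]
  constructor
  · rintro ⟨A, hA, L, hL, rfl⟩
    refine ⟨A, hA, L, fun x hx => by simpa [hx] using hL x, fun x hx => by simpa [hx] using hL x, rfl⟩
  · rintro ⟨A, hA, L, h1, h2, rfl⟩
    refine ⟨A, hA, L, fun x => ?_, rfl⟩
    by_cases hx : x ∈ A
    · simpa [hx] using h1 x hx
    · simpa [hx] using h2 x hx

theorem sigma_inj {L L' : α → Finset (Fin 7)}
    (h : (Finset.univ : Finset α).sigma L = (Finset.univ : Finset α).sigma L') : L = L' := by
  funext x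
  ext y
  have : (⟨x, y⟩ : Σ _ : α, Fin 7) ∈ (Finset.univ : Finset α).sigma L ↔
    (⟨x, y⟩ : Σ _ : α, Fin 7) ∈ (Finset.univ : Finset α).sigma L' := by rw [h]
  simpa using this

theorem comp_good {a v : ℕ} {F : Finset (Finset α)} (h : Good a v F) :
    Good (3 * a) (v * 2 ^ a) (comp F) where
  unif := by
    intro S hS
    obtain ⟨A, hA, L, h1, h2, rfl⟩ := (mem_comp F S).1 hS
    rw [Finset.card_sigma]
    have : ∑ x : α, (L x).card = ∑ x ∈ A, 3 := by
      rw [← Finset.sum_subset (Finset.subset_univ A) (fun x _ hx => by rw [h2 x hx, Finset.card_empty])]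
      exact Finset.sum_congr rfl fun x hx => fano_unif _ (h1 x hx)
    rw [this, Finset.sum_const, h.unif A hA, smul_eq_mul, mul_comm]
  inter := by
    intro S hS S' hS'
    obtain ⟨A, hA, L, h1, h2, rfl⟩ := (mem_comp F S).1 hS
    obtain ⟨A', hA', L', h1', h2', rfl⟩ := (mem_comp F S').1 hS'
    obtain ⟨x, hx⟩ := h.inter A hA A' hA'
    rw [mem_inter] at hx
    obtain ⟨y, hy⟩ := fano_inter _ (h1 x hx.1) _ (h1' x hx.2)
    rw [mem_inter] at hy
    exact ⟨⟨x, y⟩, by simp [hy.1, hy.2]⟩
  av := by
    intro T hT
    set Tx : α → Finset (Fin 7) := fun x => Finset.univ.filter (fun y => (⟨x, y⟩ : Σ _ : α, Fin 7) ∈ T)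
      with hTx
    have hTcard : T.card = ∑ x : α, (Tx x).card := by
      rw [← Finset.card_sigma]
      congr 1
      ext ⟨x, y⟩
      simp [hTx]
    set T' : Finset α := Finset.univ.filter (fun x => 3 ≤ (Tx x).card) with hT'
    have hT'card : T'.card < a := by
      have h1 : T'.card * 3 ≤ ∑ x ∈ T', (Tx x).card := by
        rw [← smul_eq_mul, ← Finset.sum_const]
        exact Finset.sum_le_sum fun x hx => (Finset.mem_filter.1 hx).2
      have h2 : ∑ x ∈ T', (Tx x).card ≤ ∑ x : α, (Tx x).card :=
        Finset.sum_le_sum_of_subset (Finset.subset_univ _)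
      omega
    have hv := h.av T' hT'card
    set P : Finset α → Finset (α → Finset (Fin 7)) := fun A =>
      Fintype.piFinset (fun x => if x ∈ A then avoid fano (Tx x) else {∅}) with hP
    have hPcard : ∀ A ∈ avoid F T', 2 ^ a ≤ (P A).card := by
      intro A hA
      obtain ⟨hA1, hA2⟩ := Finset.mem_filter.1 hA
      rw [hP]
      simp only [Fintype.card_piFinset]
      rw [← Finset.prod_subset (Finset.subset_univ A) (fun x _ hx => by simp [hx])]
      rw [← h.unif A hA1]
      apply Finset.pow_card_le_prod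
      intro x hx
      rw [if_pos hx]
      apply fano_av
      have : x ∉ T' := by
        intro hx'
        have : x ∈ A ∩ T' := mem_inter.2 ⟨hx, hx'⟩
        rw [hA2] at this
        simp at this
      rw [hT', Finset.mem_filter] at this
      push Not at this
      exact this (Finset.mem_univ x)
    have hcard1 : v * 2 ^ a ≤ ((avoid F T').sigma P).card := by
      rw [Finset.card_sigma]
      calc v * 2 ^ a ≤ (avoid F T').card * 2 ^ a := Nat.mul_le_mul_right _ hv
        _ = ∑ A ∈ avoid F T', 2 ^ a := by rw [Finset.sum_const, smul_eq_mul]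
        _ ≤ _ := Finset.sum_le_sum hPcard
    refine le_trans hcard1 ?_
    have hmemP : ∀ A L, L ∈ P A → (∀ x ∈ A, L x ∈ fano ∧ L x ∩ Tx x = ∅) ∧ (∀ x ∉ A, L x = ∅) := by
      intro A L hL
      rw [hP, Fintype.mem_piFinset] at hL
      refine ⟨fun x hx => ?_, fun x hx => ?_⟩
      · have := hL x
        rw [if_pos hx] at this
        exact Finset.mem_filter.1 this
      · have := hL x
        rw [if_neg hx] at this
        simpa using this
    apply Finset.card_le_card_of_injOn (fun p : (Σ _ : Finset α, (α → Finset (Fin 7))) =>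
      (Finset.univ : Finset α).sigma p.2)
    · rintro ⟨A, L⟩ hAL
      simp only [Finset.coe_sigma, Set.mem_sigma_iff, Finset.mem_coe] at hAL
      obtain ⟨hA, hL⟩ := hAL
      obtain ⟨hL1, hL2⟩ := hmemP A L hL
      simp only [Finset.mem_coe, avoid, Finset.mem_filter]
      refine ⟨(mem_comp F _).2 ⟨A, (Finset.mem_filter.1 hA).1, L, fun x hx => (hL1 x hx).1, hL2, rfl⟩, ?_⟩
      rw [Finset.eq_empty_iff_forall_notMem]
      rintro ⟨x, y⟩ hxy
      simp only [mem_inter, mem_sigma, mem_univ, true_and] at hxy
      by_cases hx : x ∈ A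
      · have : y ∈ L x ∩ Tx x := mem_inter.2 ⟨hxy.1, by simp [hTx, hxy.2]⟩
        rw [(hL1 x hx).2] at this
        simp at this
      · rw [hL2 x hx] at hxy
        simp at hxy
    · rintro ⟨A, L⟩ hAL ⟨A', L'⟩ hAL' heq
      simp only [Finset.coe_sigma, Set.mem_sigma_iff, Finset.mem_coe] at hAL hAL'
      have hLL : L = L' := sigma_inj heq
      subst hLL
      have hAA : A = A' := by
        have hchar : ∀ B : Finset α, L ∈ P B → ∀ x, x ∈ B ↔ L x ≠ ∅ := by
          intro B hB x
          obtain ⟨h1, h2⟩ := hmemP B L hB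
          constructor
          · intro hx h0
            have := fano_unif _ (h1 x hx).1
            rw [h0] at this
            simp at this
          · intro hx
            by_contra hc
            exact hx (h2 x hc)
        ext x
        rw [hchar A hAL.2 x, hchar A' hAL'.2 x]
      subst hAA
      rfl

theorem has_comp {a v : ℕ} (h : Has a v) : Has (3 * a) (v * 2 ^ a) := by
  obtain ⟨n, F, hF⟩ := h
  exact Has.of_good (comp_good hF)

end Pool.Agent.MP_2b3591_co
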