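import Pool.Agent.MP_2b3591_co.Defs

set_option autoImplicit false

namespace Pool.Agent.MP_2b3591_co

open Finset

/-- `F` is intersecting, `k`-uniform and every set of fewer than `k` points is avoided by at
least `v` members. -/
structure Good {α : Type*} [DecidableEq α] (k v : ℕ) (F : Finset (Finset α)) : Prop where
  unif : Uniform k F
  inter : Intersecting F
  av : ∀ T : Finset α, T.card < k → v ≤ (avoid F T).card

theorem avoid_anti {α : Type*} [DecidableEq α] (F : Finset (Finset α)) {B C : Finset α} (h : B ⊆ C) :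
    avoid F C ⊆ avoid F B := by
  intro A hA
  simp only [avoid, mem_filter] at hA ⊢
  refine ⟨hA.1, ?_⟩
  rw [← Finset.subset_empty, ← hA.2]
  exact Finset.inter_subset_inter_left h

/-- Erdős–Lovász: an intersecting `k`-uniform family with covering number at least `k` has at most
`k ^ k` members. -/
theorem card_le {n : ℕ} (k : ℕ) (F : Finset (Finset (Fin n))) (hu : Uniform k F) (hi : Intersecting F)
    (ht : tau F = k) : F.card ≤ k ^ k := by
  have hcov : ∀ T : Finset (Fin n), T.card < k → ∃ A ∈ F, T ∩ A = ∅ := by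
    intro T hT
    by_contra hcon
    push Not at hcon
    have : tau F ≤ T.card := Nat.sInf_le ⟨T, rfl, fun A hA => hcon A hA⟩
    omega
  have key : ∀ i : ℕ, ∀ A : Finset (Fin n), A.card + i = k →
      (F.filter (fun S => A ⊆ S)).card ≤ k ^ i := by
    intro i
    induction i with
    | zero =>
      intro A hA
      rw [pow_zero, Finset.card_le_one]
      intro S hS S' hS'
      simp only [mem_filter] at hS hS'
      have h1 : A = S := Finset.eq_of_subset_of_card_le hS.2 (by rw [hu S hS.1]; omega)
      have h2 : A = S' := Finset.eq_of_subset_of_card_le hS'.2 (by rw [hu S' hS'.1]; omega)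
      rw [← h1, ← h2]
    | succ i ih =>
      intro A hA
      obtain ⟨S0, hS0, hd⟩ := hcov A (by omega)
      have hsub : F.filter (fun S => A ⊆ S) ⊆ S0.biUnion (fun x => F.filter (fun S => insert x A ⊆ S)) := by
        intro S hS
        simp only [mem_filter] at hS
        obtain ⟨x, hx⟩ := hi S hS.1 S0 hS0
        simp only [mem_biUnion, mem_filter]
        rw [mem_inter] at hx
        exact ⟨x, hx.2, hS.1, Finset.insert_subset hx.1 hS.2⟩
      calc (F.filter (fun S => A ⊆ S)).card ≤ _ := Finset.card_le_card hsub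
        _ ≤ ∑ x ∈ S0, (F.filter (fun S => insert x A ⊆ S)).card := Finset.card_biUnion_le
        _ ≤ ∑ x ∈ S0, k ^ i := by
            refine Finset.sum_le_sum fun x hx => ih _ ?_
            have hxA : x ∉ A := by
              intro h
              have : x ∈ A ∩ S0 := mem_inter.2 ⟨h, hx⟩
              rw [hd] at this
              simp at this
            rw [Finset.card_insert_of_notMem hxA]
            omega
        _ = k ^ (i + 1) := by
            rw [Finset.sum_const, hu S0 hS0, smul_eq_mul, pow_succ, mul_comm]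
  have h := key k ∅ (by simp)
  simpa using h

theorem m_ge_of_good {n : ℕ} (k v : ℕ) (hk : 1 ≤ k) (hv : 1 ≤ v) (F : Finset (Finset (Fin n)))
    (h : Good k v F) : v ≤ m k (k - 1) := by
  have hne : F.Nonempty := by
    have := h.av ∅ (by rw [Finset.card_empty]; omega)
    have h2 : (avoid F ∅).Nonempty := Finset.card_pos.1 (by omega)
    obtain ⟨A, hA⟩ := h2
    exact ⟨A, (Finset.mem_filter.1 hA).1⟩
  obtain ⟨A0, hA0⟩ := hne
  have hne2 : {t | ∃ T : Finset (Fin n), T.card = t ∧ ∀ A ∈ F, (T ∩ A).Nonempty}.Nonempty :=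
    ⟨k, A0, h.unif A0 hA0, fun A hA => h.inter A0 hA0 A hA⟩
  have htau : tau F = k := by
    apply le_antisymm
    · exact Nat.sInf_le ⟨A0, h.unif A0 hA0, fun A hA => h.inter A0 hA0 A hA⟩
    · obtain ⟨T, hT, hT2⟩ := Nat.sInf_mem hne2
      change T.card = tau F at hT
      rw [← hT]
      by_contra hlt
      push Not at hlt
      have h1 := h.av T hlt
      have h2 : (avoid F T).Nonempty := Finset.card_pos.1 (by omega)
      obtain ⟨A, hA⟩ := h2
      rw [avoid, Finset.mem_filter] at hA
      have := hT2 A hA.1
      rw [Finset.inter_comm, hA.2] at this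
      simp at this
  have hn : k ≤ n := by
    have := Finset.card_le_univ A0
    rw [h.unif A0 hA0] at this
    simpa using this
  have hmin : v ≤ minAvoid F (k - 1) := by
    have hne3 : {t | ∃ B : Finset (Fin n), B.card = k - 1 ∧ (avoid F B).card = t}.Nonempty := by
      obtain ⟨B, hB⟩ := Finset.exists_subset_card_eq (s := (Finset.univ : Finset (Fin n))) (n := k - 1)
        (by simp; omega)
      exact ⟨_, B, hB.2, rfl⟩
    obtain ⟨B, hB, hB2⟩ := Nat.sInf_mem hne3
    change (avoid F B).card = minAvoid F (k - 1) at hB2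
    rw [← hB2]
    exact h.av B (by omega)
  refine le_trans hmin ?_
  unfold m
  apply le_csSup
  · refine ⟨k ^ k, ?_⟩
    rintro t ⟨n', F', hu, hi, ht, rfl⟩
    by_cases hex : ∃ B : Finset (Fin n'), B.card = k - 1
    · obtain ⟨B, hB⟩ := hex
      have h1 : minAvoid F' (k - 1) ≤ (avoid F' B).card := Nat.sInf_le ⟨B, hB, rfl⟩
      have h2 : (avoid F' B).card ≤ F'.card := Finset.card_filter_le _ _
      exact le_trans h1 (le_trans h2 (card_le k F' hu hi ht))
    · have : {t | ∃ B : Finset (Fin n'), B.card = k - 1 ∧ (avoid F' B).card = t} = ∅ := by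
        ext t
        simp only [Set.mem_ofPred_eq, Set.mem_empty_iff_false, iff_false]
        rintro ⟨B, hB, -⟩
        exact hex ⟨B, hB⟩
      unfold minAvoid
      rw [this, Nat.sInf_empty]
      exact Nat.zero_le _
  · exact ⟨n, F, h.unif, h.inter, htau, rfl⟩

/-- `Good` families transfer along an equivalence of the ground sets. -/
theorem Good.transfer {α β : Type*} [DecidableEq α] [DecidableEq β] (e : α ≃ β) {k v : ℕ}
    {F : Finset (Finset α)} (h : Good k v F) :
    Good k v (F.map ⟨fun A => A.map e.toEmbedding, Finset.map_injective _⟩) where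
  unif := by
    intro A hA
    simp only [Finset.mem_map, Function.Embedding.coeFn_mk] at hA
    obtain ⟨A', hA', rfl⟩ := hA
    rw [Finset.card_map]
    exact h.unif A' hA'
  inter := by
    intro A hA B hB
    simp only [Finset.mem_map, Function.Embedding.coeFn_mk] at hA hB
    obtain ⟨A', hA', rfl⟩ := hA
    obtain ⟨B', hB', rfl⟩ := hB
    rw [← Finset.map_inter]
    exact (h.inter A' hA' B' hB').map
  av := by
    intro T hT
    have hT' : (T.map e.symm.toEmbedding).card < k := by rw [Finset.card_map]; exact hT
    refine le_trans (h.av _ hT') ?_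
    rw [← Finset.card_map ⟨fun A : Finset α => A.map e.toEmbedding, Finset.map_injective _⟩]
    apply Finset.card_le_card
    intro A hA
    simp only [Finset.mem_map, Function.Embedding.coeFn_mk, avoid, Finset.mem_filter] at hA ⊢
    obtain ⟨A', ⟨hA', hd⟩, rfl⟩ := hA
    refine ⟨⟨A', hA', rfl⟩, ?_⟩
    have : T = (T.map e.symm.toEmbedding).map e.toEmbedding := by
      rw [Finset.map_map]; ext x; simp
    rw [this, ← Finset.map_inter, hd, Finset.map_empty]

/-- There is a good family on a finite ground set. -/
def Has (k v : ℕ) : Prop := ∃ (n : ℕ) (F : Finset (Finset (Fin n))), Good k v F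

theorem Has.of_good {α : Type*} [Fintype α] [DecidableEq α] {k v : ℕ} {F : Finset (Finset α)}
    (h : Good k v F) : Has k v := ⟨Fintype.card α, _, h.transfer (Fintype.equivFin α)⟩

theorem Has.mono {k v w : ℕ} (h : Has k v) (hw : w ≤ v) : Has k w := by
  obtain ⟨n, F, hF⟩ := h
  exact ⟨n, F, hF.unif, hF.inter, fun T hT => le_trans hw (hF.av T hT)⟩

theorem has_one (k : ℕ) (hk : 1 ≤ k) : Has k 1 := by
  refine ⟨2 * k - 1, Finset.powersetCard k Finset.univ, ?_, ?_, ?_⟩
  · intro A hA
    exact (Finset.mem_powersetCard.1 hA).2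
  · intro A hA B hB
    have hA' := (Finset.mem_powersetCard.1 hA).2
    have hB' := (Finset.mem_powersetCard.1 hB).2
    rw [Finset.nonempty_iff_ne_empty]
    intro he
    have h1 := Finset.card_union_add_card_inter A B
    rw [he, Finset.card_empty] at h1
    have h2 := Finset.card_le_univ (A ∪ B)
    rw [Fintype.card_fin] at h2
    omega
  · intro T hT
    rw [Nat.one_le_iff_ne_zero, ← Nat.pos_iff_ne_zero, Finset.card_pos]
    have h1 : k ≤ (Tᶜ).card := by
      rw [Finset.card_compl, Fintype.card_fin]; omega
    obtain ⟨A, hA, hAc⟩ := Finset.exists_subset_card_eq h1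
    refine ⟨A, Finset.mem_filter.2 ⟨Finset.mem_powersetCard.2 ⟨Finset.subset_univ _, hAc⟩, ?_⟩⟩
    rw [← Finset.disjoint_iff_inter_eq_empty]
    exact Finset.disjoint_left.2 fun x hx => Finset.mem_compl.1 (hA hx)

end Pool.Agent.MP_2b3591_co
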