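import Mathlib

set_option autoImplicit false

namespace Pool.Agent.MP_2b3591_co

/-- The family is `k`-uniform. -/
def Uniform {α : Type*} (k : ℕ) (F : Finset (Finset α)) : Prop := ∀ A ∈ F, A.card = k

/-- Any two members of the family meet. -/
def Intersecting {α : Type*} [DecidableEq α] (F : Finset (Finset α)) : Prop :=
  ∀ A ∈ F, ∀ B ∈ F, (A ∩ B).Nonempty

/-- The covering number: least size of a set meeting all members. -/
noncomputable def tau {n : ℕ} (F : Finset (Finset (Fin n))) : ℕ :=
  sInf {t | ∃ T : Finset (Fin n), T.card = t ∧ ∀ A ∈ F, (T ∩ A).Nonempty}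

/-- The members of `F` disjoint from `B`. -/
def avoid {α : Type*} [DecidableEq α] (F : Finset (Finset α)) (B : Finset α) : Finset (Finset α) :=
  F.filter (fun A => A ∩ B = ∅)

/-- The least number of members of `F` disjoint from `B`, over all `a`-element sets `B`. -/
noncomputable def minAvoid {n : ℕ} (F : Finset (Finset (Fin n))) (a : ℕ) : ℕ :=
  sInf {t | ∃ B : Finset (Fin n), B.card = a ∧ (avoid F B).card = t}

/-- The number `m(k,a)`: the maximum of `minAvoid F a` over all `n` and all intersecting `k`-uniform
families `F` on `n` points with covering number `k`. -/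
noncomputable def m (k a : ℕ) : ℕ :=
  sSup {t | ∃ (n : ℕ) (F : Finset (Finset (Fin n))), Uniform k F ∧ Intersecting F ∧ tau F = k ∧
    minAvoid F a = t}

end Pool.Agent.MP_2b3591_co
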