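import Pool.Agent.MP_2b3591_co.Pair

set_option autoImplicit false

namespace Pool.Agent.MP_2b3591_co

theorem has_three (a : ℕ) (ha : 1 ≤ a) : Has (3 * a) (2 ^ a) := by
  have := has_comp (has_one a ha)
  rwa [one_mul] at this

theorem has_five (b : ℕ) : Has (3 * (b + 1) + 2) (2 ^ (b + 1)) := by
  have h := has_three (b + 1) (by omega)
  rw [show 3 * (b + 1) = (3 * b + 2) + 1 by ring] at h
  have h2 := has_pair h (by omega) Nat.one_le_two_pow
  have h3 : 2 ^ (b + 1) ≤ min (2 ^ (b + 1) + 1) (2 ^ (3 * b + 2)) :=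
    le_min (by omega) (Nat.pow_le_pow_right (by norm_num) (by omega))
  exact h2.mono h3

theorem has_seven (b : ℕ) : Has (3 * (b + 1) + 4) (2 ^ (b + 1)) := by
  have h := has_five b
  rw [show 3 * (b + 1) + 2 = (3 * b + 4) + 1 by ring] at h
  have h2 := has_pair h (by omega) Nat.one_le_two_pow
  have h3 : 2 ^ (b + 1) ≤ min (2 ^ (b + 1) + 1) (2 ^ (3 * b + 4)) :=
    le_min (by omega) (Nat.pow_le_pow_right (by norm_num) (by omega))
  exact h2.mono h3

theorem has_four : Has 4 2 := by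
  have h := has_one 2 (by norm_num)
  have h2 := has_pair (l := 1) h (by norm_num) (by norm_num)
  simpa using h2

theorem exists_has (k : ℕ) (hk : 3 ≤ k) : ∃ v : ℕ, Has k v ∧ ((11 / 10 : ℝ)) ^ k < v := by
  have hpow : ∀ b : ℕ, ((1331 / 1000 : ℝ)) ^ b ≤ 2 ^ b := fun b =>
    pow_le_pow_left₀ (by norm_num) (by norm_num) b
  have hpos : ∀ b : ℕ, (0 : ℝ) < 2 ^ b := fun b => by positivity
  have hc : k = 4 ∨ ∃ b, k = 3 * (b + 1) ∨ k = 3 * (b + 1) + 2 ∨ k = 3 * (b + 1) + 4 := by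
    by_cases h4 : k = 4
    · exact Or.inl h4
    · right
      have : k % 3 = 0 ∨ k % 3 = 1 ∨ k % 3 = 2 := by omega
      rcases this with h | h | h
      · exact ⟨k / 3 - 1, Or.inl (by omega)⟩
      · exact ⟨k / 3 - 2, Or.inr (Or.inr (by omega))⟩
      · exact ⟨k / 3 - 1, Or.inr (Or.inl (by omega))⟩
  rcases hc with rfl | ⟨b, rfl | rfl | rfl⟩
  · exact ⟨2, has_four, by norm_num⟩
  · refine ⟨2 ^ (b + 1), has_three (b + 1) (by omega), ?_⟩
    have e : ((11 / 10 : ℝ)) ^ (3 * (b + 1)) = (1331 / 1000) * (1331 / 1000) ^ b := by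
      rw [pow_mul, pow_succ]; norm_num; ring
    rw [e]
    push_cast
    rw [pow_succ]
    nlinarith [hpow b, hpos b]
  · refine ⟨2 ^ (b + 1), has_five b, ?_⟩
    have e : ((11 / 10 : ℝ)) ^ (3 * (b + 1) + 2) = (1331 / 1000 * (121 / 100)) * (1331 / 1000) ^ b := by
      rw [pow_add, pow_mul, pow_succ]; norm_num; ring
    rw [e]
    push_cast
    rw [pow_succ]
    nlinarith [hpow b, hpos b]
  · refine ⟨2 ^ (b + 1), has_seven b, ?_⟩
    have e : ((11 / 10 : ℝ)) ^ (3 * (b + 1) + 4)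
        = (1331 / 1000 * (14641 / 10000)) * (1331 / 1000) ^ b := by
      rw [pow_add, pow_mul, pow_succ]; norm_num; ring
    rw [e]
    push_cast
    rw [pow_succ]
    nlinarith [hpow b, hpos b]

end Pool.Agent.MP_2b3591_co

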