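import Pool.Agent.MP_2b3591_co.Comp

set_option autoImplicit false

namespace Pool.Agent.MP_2b3591_co

open Finset

variable {α : Type*} [DecidableEq α]

/-- At least two of the first three coordinates are true. -/
def maj {l : ℕ} (h : Fin (l + 3) → Bool) : Bool :=
  (h 0 && h 1) || (h 0 && h 2) || (h 1 && h 2)

/-- A member of first kind. -/
def mem1 {l : ℕ} (A : Finset α) (i : Fin (l + 3)) : Finset (α ⊕ (Fin (l + 3) × Bool)) :=
  A.disjSum {(i, false), (i, true)}

/-- A member of second kind. -/
def mem2 (α : Type*) [DecidableEq α] {l : ℕ} (h : Fin (l + 3) → Bool) :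
    Finset (α ⊕ (Fin (l + 3) × Bool)) :=
  (∅ : Finset α).disjSum (Finset.univ.image (fun i => (i, h i)))

/-- The pair construction. -/
def pairc (l : ℕ) (F : Finset (Finset α)) : Finset (Finset (α ⊕ (Fin (l + 3) × Bool))) :=
  ((F ×ˢ (Finset.univ : Finset (Fin (l + 3)))).image (fun p => mem1 p.1 p.2)) ∪
    ((Finset.univ.filter (fun h : Fin (l + 3) → Bool => maj h = true)).image (mem2 α))

theorem mem_pairc (l : ℕ) (F : Finset (Finset α)) (S : Finset (α ⊕ (Fin (l + 3) × Bool))) :
    S ∈ pairc l F ↔ (∃ A ∈ F, ∃ i, S = mem1 A i) ∨ (∃ h : Fin (l + 3) → Bool, maj h = true ∧ S = mem2 α h) := by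
  simp only [pairc, mem_union, mem_image, mem_product, mem_univ, and_true, mem_filter, true_and,
    Prod.exists]
  constructor
  · rintro (⟨A, i, hA, rfl⟩ | ⟨h, hh, rfl⟩)
    · exact Or.inl ⟨A, hA, i, rfl⟩
    · exact Or.inr ⟨h, hh, rfl⟩
  · rintro (⟨A, hA, i, rfl⟩ | ⟨h, hh, rfl⟩)
    · exact Or.inl ⟨A, i, hA, rfl⟩
    · exact Or.inr ⟨h, hh, rfl⟩

theorem card_mem1 {l : ℕ} (A : Finset α) (i : Fin (l + 3)) : (mem1 A i).card = A.card + 2 := by
  rw [mem1, Finset.card_disjSum, Finset.card_pair (by simp)]

theorem card_mem2 {l : ℕ} (h : Fin (l + 3) → Bool) : (mem2 α h).card = l + 3 := by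
  rw [mem2, Finset.card_disjSum, Finset.card_empty, zero_add,
    Finset.card_image_of_injective _ (fun i j hij => (Prod.mk.inj hij).1), Finset.card_univ,
    Fintype.card_fin]

theorem mem1_inl {l : ℕ} (A : Finset α) (i : Fin (l + 3)) (a : α) :
    (Sum.inl a : α ⊕ (Fin (l + 3) × Bool)) ∈ mem1 A i ↔ a ∈ A := by
  simp [mem1]

theorem mem1_inr {l : ℕ} (A : Finset α) (i : Fin (l + 3)) (p : Fin (l + 3) × Bool) :
    (Sum.inr p : α ⊕ (Fin (l + 3) × Bool)) ∈ mem1 A i ↔ p.1 = i := by
  obtain ⟨j, b⟩ := p
  cases b <;> simp [mem1]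

theorem mem2_inl {l : ℕ} (h : Fin (l + 3) → Bool) (a : α) :
    (Sum.inl a : α ⊕ (Fin (l + 3) × Bool)) ∉ mem2 α h := by
  simp [mem2]

theorem mem2_inr {l : ℕ} (h : Fin (l + 3) → Bool) (p : Fin (l + 3) × Bool) :
    (Sum.inr p : α ⊕ (Fin (l + 3) × Bool)) ∈ mem2 α h ↔ p.2 = h p.1 := by
  obtain ⟨j, b⟩ := p
  simp only [mem2, inr_mem_disjSum, mem_image, mem_univ, true_and, Prod.mk.injEq]
  constructor
  · rintro ⟨a, rfl, rfl⟩; rfl
  · rintro rfl; exact ⟨j, rfl, rfl⟩

theorem maj_meet {l : ℕ} (h h' : Fin (l + 3) → Bool) (hh : maj h = true) (hh' : maj h' = true) :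
    ∃ i, h i = h' i := by
  unfold maj at hh hh'
  by_contra hcon
  push Not at hcon
  have h0 := hcon 0
  have h1 := hcon 1
  have h2 := hcon 2
  revert hh hh' h0 h1 h2
  cases h 0 <;> cases h 1 <;> cases h 2 <;> cases h' 0 <;> cases h' 1 <;> cases h' 2 <;> simp

theorem card_fixed {N : ℕ} (D : Finset (Fin N)) (f : Fin N → Bool) :
    (Finset.univ.filter (fun h : Fin N → Bool => ∀ i ∈ D, h i = f i)).card = 2 ^ (N - D.card) := by
  have : Finset.univ.filter (fun h : Fin N → Bool => ∀ i ∈ D, h i = f i)
      = Fintype.piFinset (fun i => if i ∈ D then {f i} else (Finset.univ : Finset Bool)) := by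
    ext h
    simp only [mem_filter, mem_univ, true_and, Fintype.mem_piFinset]
    constructor
    · intro hh i
      by_cases hi : i ∈ D
      · simp [hi, hh i hi]
      · simp [hi]
    · intro hh i hi
      simpa [hi] using hh i
  rw [this, Fintype.card_piFinset]
  have h2 : ∀ i : Fin N, (if i ∈ D then ({f i} : Finset Bool) else Finset.univ).card
      = if i ∈ Dᶜ then 2 else 1 := by
    intro i
    by_cases hi : i ∈ D <;> simp [hi]
  rw [Finset.prod_congr rfl (fun i _ => h2 i), Finset.prod_ite_mem, Finset.univ_inter,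
    Finset.prod_const, Finset.card_compl, Fintype.card_fin]

theorem pairc_good {l v : ℕ} {F : Finset (Finset α)} (h : Good (l + 1) v F) (hl : 1 ≤ l) (hv : 1 ≤ v) :
    Good (l + 3) (min (v + 1) (2 ^ l)) (pairc l F) where
  unif := by
    intro S hS
    rcases (mem_pairc l F S).1 hS with ⟨A, hA, i, rfl⟩ | ⟨g, -, rfl⟩
    · rw [card_mem1, h.unif A hA]
    · exact card_mem2 g
  inter := by
    intro S hS S' hS'
    rcases (mem_pairc l F S).1 hS with ⟨A, hA, i, rfl⟩ | ⟨g, hg, rfl⟩
    · rcases (mem_pairc l F S').1 hS' with ⟨A', hA', i', rfl⟩ | ⟨g', hg', rfl⟩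
      · obtain ⟨x, hx⟩ := h.inter A hA A' hA'
        rw [mem_inter] at hx
        exact ⟨Sum.inl x, mem_inter.2 ⟨(mem1_inl _ _ _).2 hx.1, (mem1_inl _ _ _).2 hx.2⟩⟩
      · exact ⟨Sum.inr (i, g' i), mem_inter.2 ⟨(mem1_inr _ _ _).2 rfl, (mem2_inr _ _).2 rfl⟩⟩
    · rcases (mem_pairc l F S').1 hS' with ⟨A', hA', i', rfl⟩ | ⟨g', hg', rfl⟩
      · exact ⟨Sum.inr (i', g i'), mem_inter.2 ⟨(mem2_inr _ _).2 rfl, (mem1_inr _ _ _).2 rfl⟩⟩
      · obtain ⟨i, hi⟩ := maj_meet g g' hg hg'
        exact ⟨Sum.inr (i, g i), mem_inter.2 ⟨(mem2_inr _ _).2 rfl, (mem2_inr _ _).2 hi⟩⟩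
  av := by
    intro T hT
    have hTc : T.toLeft.card + T.toRight.card = T.card := Finset.card_toLeft_add_card_toRight
    by_cases hT1 : T.toLeft.card < l + 1
    · -- members of the first kind
      set I : Finset (Fin (l + 3)) := (T.toRight.image Prod.fst)ᶜ with hI
      have hIcard : T.toLeft.card + 1 ≤ I.card := by
        rw [hI, Finset.card_compl, Fintype.card_fin]
        have := Finset.card_image_le (s := T.toRight) (f := Prod.fst)
        omega
      have hcard : (avoid F T.toLeft).card * I.card ≤ (avoid (pairc l F) T).card := by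
        rw [← Finset.card_product]
        apply Finset.card_le_card_of_injOn (fun p : Finset α × Fin (l + 3) => mem1 p.1 p.2)
        · rintro ⟨A, i⟩ hAi
          rw [Finset.mem_coe, Finset.mem_product] at hAi
          obtain ⟨hA, hi⟩ := hAi
          obtain ⟨hA1, hA2⟩ := Finset.mem_filter.1 hA
          rw [Finset.mem_coe, avoid, Finset.mem_filter]
          refine ⟨(mem_pairc l F _).2 (Or.inl ⟨A, hA1, i, rfl⟩), ?_⟩
          rw [Finset.eq_empty_iff_forall_notMem]
          intro x hx
          rw [mem_inter] at hx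
          rcases x with a | p
          · have h1 := (mem1_inl _ _ _).1 hx.1
            have h2 : a ∈ A ∩ T.toLeft := mem_inter.2 ⟨h1, Finset.mem_toLeft.2 hx.2⟩
            rw [hA2] at h2
            simp at h2
          · have h1 : p.1 = i := (mem1_inr _ _ _).1 hx.1
            rw [hI, Finset.mem_compl] at hi
            exact hi (Finset.mem_image.2 ⟨p, Finset.mem_toRight.2 hx.2, h1⟩)
        · rintro ⟨A, i⟩ _ ⟨A', i'⟩ _ heq
          simp only at heq
          have hAA : A = A' := by
            ext a
            rw [← mem1_inl A i a, heq, mem1_inl]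
          have hii : i = i' := by
            have h1 : (Sum.inr (i, true) : α ⊕ (Fin (l + 3) × Bool)) ∈ mem1 A' i' := by
              rw [← heq, mem1_inr]
            exact (mem1_inr _ _ _).1 h1
          rw [hAA, hii]
      refine le_trans (min_le_left _ _) (le_trans ?_ hcard)
      by_cases h0 : T.toLeft.card = 0
      · have hT0 : T.toLeft = ∅ := Finset.card_eq_zero.1 h0
        have hF : v + 1 ≤ (avoid F T.toLeft).card := by
          rw [hT0]
          have hav : avoid F (∅ : Finset α) = F := by
            unfold avoid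
            rw [Finset.filter_true_of_mem]
            intro A _
            exact Finset.inter_empty A
          rw [hav]
          have h1 := h.av ∅ (by rw [Finset.card_empty]; omega)
          rw [hav] at h1
          have hne : F.Nonempty := Finset.card_pos.1 (by omega)
          obtain ⟨A0, hA0⟩ := hne
          have hA0c := h.unif A0 hA0
          have hA0n : A0.Nonempty := Finset.card_pos.1 (by omega)
          obtain ⟨x, hx⟩ := hA0n
          have h2 := h.av {x} (by rw [Finset.card_singleton]; omega)
          have h3 : avoid F {x} ⊂ F := by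
            refine (Finset.ssubset_iff_of_subset (Finset.filter_subset _ _ : avoid F {x} ⊆ F)).2 ?_
            refine ⟨A0, hA0, ?_⟩
            rw [Finset.mem_filter]
            rintro ⟨-, h4⟩
            have : x ∈ A0 ∩ {x} := mem_inter.2 ⟨hx, Finset.mem_singleton_self x⟩
            rw [h4] at this
            simp at this
          have h5 := Finset.card_lt_card h3
          omega
        calc v + 1 ≤ (avoid F T.toLeft).card := hF
          _ = (avoid F T.toLeft).card * 1 := (mul_one _).symm
          _ ≤ (avoid F T.toLeft).card * I.card := Nat.mul_le_mul_left _ (by omega)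
      · have h1 := h.av T.toLeft hT1
        calc v + 1 ≤ v * 2 := by omega
          _ ≤ (avoid F T.toLeft).card * I.card := Nat.mul_le_mul h1 (by omega)
    · -- members of the second kind
      have hT2 : T.toRight.card ≤ 1 := by omega
      obtain ⟨p0, hp0⟩ := Finset.card_le_one_iff_subset_singleton.1 hT2
      have key : ∃ (D : Finset (Fin (l + 3))) (f : Fin (l + 3) → Bool), D.card = 3 ∧
          ∀ g : Fin (l + 3) → Bool, (∀ i ∈ D, g i = f i) → maj g = true ∧ g p0.1 ≠ p0.2 := by
        obtain ⟨i0, b0⟩ := p0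
        by_cases hi0 : i0 = 0 ∨ i0 = 1 ∨ i0 = 2
        · refine ⟨{0, 1, 2}, fun i => if i = i0 then !b0 else true, ?_, ?_⟩
          · rw [Finset.card_eq_three]
            refine ⟨0, 1, 2, ?_, ?_, ?_, rfl⟩
            · exact Fin.ne_of_val_ne (by simp)
            · refine Fin.ne_of_val_ne ?_
              rw [show ((2 : Fin (l + 3)) : ℕ) = 2 % (l + 3) from rfl, Nat.mod_eq_of_lt (by omega)]
              simp
            · refine Fin.ne_of_val_ne ?_
              rw [show ((2 : Fin (l + 3)) : ℕ) = 2 % (l + 3) from rfl, Nat.mod_eq_of_lt (by omega)]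
              simp
          · intro g hg
            have hn01 : (0 : Fin (l + 3)) ≠ 1 := Fin.ne_of_val_ne (by simp)
            have hn02 : (0 : Fin (l + 3)) ≠ 2 := by
              refine Fin.ne_of_val_ne ?_
              rw [show ((2 : Fin (l + 3)) : ℕ) = 2 % (l + 3) from rfl, Nat.mod_eq_of_lt (by omega)]
              simp
            have hn12 : (1 : Fin (l + 3)) ≠ 2 := by
              refine Fin.ne_of_val_ne ?_
              rw [show ((2 : Fin (l + 3)) : ℕ) = 2 % (l + 3) from rfl, Nat.mod_eq_of_lt (by omega)]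
              simp
            have h0 := hg 0 (by simp)
            have h1 := hg 1 (by simp)
            have h2 := hg 2 (by simp)
            unfold maj
            rcases hi0 with rfl | rfl | rfl
            · simp only [if_true, hn01.symm, hn02.symm, if_false] at h0 h1 h2
              rw [h0, h1, h2]
              cases b0 <;> simp
            · simp only [if_true, hn01, hn12.symm, if_false] at h0 h1 h2
              rw [h0, h1, h2]
              cases b0 <;> simp
            · simp only [if_true, hn02, hn12, if_false] at h0 h1 h2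
              rw [h0, h1, h2]
              cases b0 <;> simp
        · push Not at hi0
          have hn01 : (0 : Fin (l + 3)) ≠ 1 := Fin.ne_of_val_ne (by simp)
          refine ⟨{0, 1, i0}, fun i => if i = i0 then !b0 else true, ?_, ?_⟩
          · rw [Finset.card_eq_three]
            exact ⟨0, 1, i0, hn01, hi0.1.symm, hi0.2.1.symm, rfl⟩
          · intro g hg
            have h0 := hg 0 (by simp)
            have h1 := hg 1 (by simp)
            have h2 := hg i0 (by simp)
            simp only [if_true, hi0.1.symm, hi0.2.1.symm, if_false] at h0 h1 h2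
            unfold maj
            refine ⟨by rw [h0, h1]; simp, ?_⟩
            simp only
            rw [h2]
            cases b0 <;> simp
      obtain ⟨D, f, hD, hDf⟩ := key
      refine le_trans (min_le_right _ _) ?_
      have hc := card_fixed D f
      rw [hD, show l + 3 - 3 = l by omega] at hc
      rw [← hc]
      apply Finset.card_le_card_of_injOn (mem2 α)
      · intro g hg
        rw [Finset.mem_coe, Finset.mem_filter] at hg
        obtain ⟨hg1, hg2⟩ := hDf g hg.2
        rw [Finset.mem_coe, avoid, Finset.mem_filter]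
        refine ⟨(mem_pairc l F _).2 (Or.inr ⟨g, hg1, rfl⟩), ?_⟩
        rw [Finset.eq_empty_iff_forall_notMem]
        intro x hx
        rw [mem_inter] at hx
        rcases x with a | p
        · exact mem2_inl g a hx.1
        · have h1 : p.2 = g p.1 := (mem2_inr _ _).1 hx.1
          have h2 : p = p0 := by
            have := hp0 (Finset.mem_toRight.2 hx.2)
            simpa using this
          subst h2
          exact hg2 h1.symm
      · intro g _ g' _ heq
        funext i
        have h1 : (Sum.inr (i, g i) : α ⊕ (Fin (l + 3) × Bool)) ∈ mem2 α g' := by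
          rw [← heq, mem2_inr]
        exact (mem2_inr _ _).1 h1

theorem has_pair {l v : ℕ} (h : Has (l + 1) v) (hl : 1 ≤ l) (hv : 1 ≤ v) :
    Has (l + 3) (min (v + 1) (2 ^ l)) := by
  obtain ⟨n, F, hF⟩ := h
  exact Has.of_good (pairc_good hF hl hv)

end Pool.Agent.MP_2b3591_co
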